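import Mathlib

set_option autoImplicit false

/-!
# Potentials on finite digraphs

`V` a finite type, `A : V → V → Prop` a digraph, `d : V → V → ℝ` weights.  If every injective
closed walk (directed cycle) has nonnegative weight and every vertex can be reached from a vertex
`o` and can reach `o`, then there is a potential `f` with `f b - f a ≤ d a b` for all arcs.
-/

namespace Run7.h956.Potential

variable {V : Type*} (A : V → V → Prop) (d : V → V → ℝ)

/-- `w 0, ..., w k` is a walk of the digraph `A`. -/
def IsWalk (k : ℕ) (w : ℕ → V) : Prop := ∀ i < k, A (w i) (w (i + 1))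

/-- The weight of the walk. -/
noncomputable def weight (k : ℕ) (w : ℕ → V) : ℝ := ∑ i ∈ Finset.range k, d (w i) (w (i + 1))

/-- Walks from `a` to `b` with length and weight. -/
inductive Wk : V → V → ℕ → ℝ → Prop
  | nil (a : V) : Wk a a 0 0
  | snoc {a b : V} {k : ℕ} {W : ℝ} (c : V) : Wk a b k W → A b c → Wk a c (k + 1) (W + d b c)

variable {A d}

lemma Wk.append {a b c : V} {k l : ℕ} {W U : ℝ} (h : Wk A d a b k W) (h' : Wk A d b c l U) :
    Wk A d a c (k + l) (W + U) := by
  induction h' with
  | nil => simpa using h
  | snoc c _ hA ih =>
    have := ih.snoc c hA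
    rwa [add_assoc, add_assoc] at this

lemma Wk.toFun {a b : V} {k : ℕ} {W : ℝ} (h : Wk A d a b k W) :
    ∃ w : ℕ → V, w 0 = a ∧ w k = b ∧ IsWalk A k w ∧ weight d k w = W := by
  induction h with
  | nil => exact ⟨fun _ => a, rfl, rfl, fun i hi => absurd hi (Nat.not_lt_zero i), by simp [weight]⟩
  | @snoc b k W c _ hA ih =>
    obtain ⟨w, h0, hk, hw, hW⟩ := ih
    refine ⟨fun i => if i ≤ k then w i else c, by simp [h0], by simp, ?_, ?_⟩
    · intro i hi
      rcases Nat.lt_succ_iff_lt_or_eq.1 hi with h | rfl
      · have h1 : i ≤ k := h.le
        have h2 : i + 1 ≤ k := h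
        simpa [h1, h2] using hw i h
      · simpa [hk] using hA
    · rw [weight, Finset.sum_range_succ]
      have h1 : ∑ i ∈ Finset.range k, d ((fun i => if i ≤ k then w i else c) i)
          ((fun i => if i ≤ k then w i else c) (i + 1)) = W := by
        rw [← hW, weight]
        refine Finset.sum_congr rfl fun i hi => ?_
        have h1 : i < k := Finset.mem_range.1 hi
        have h2 : i + 1 ≤ k := h1
        simp [h1.le, h2]
      rw [h1]
      simp [hk]

/-- If all injective closed walks have nonnegative weight then so have all closed walks. -/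
lemma closed_nonneg
    (hc : ∀ (k : ℕ) (w : ℕ → V), 0 < k → w k = w 0 → IsWalk A k w →
      (∀ i < k, ∀ j < k, w i = w j → i = j) → 0 ≤ weight d k w) :
    ∀ (k : ℕ) (w : ℕ → V), w k = w 0 → IsWalk A k w → 0 ≤ weight d k w := by
  intro k
  induction k using Nat.strong_induction_on with
  | _ k ih =>
    intro w hk hw
    rcases Nat.eq_zero_or_pos k with rfl | hpos
    · simp [weight]
    by_cases hinj : ∀ i < k, ∀ j < k, w i = w j → i = j
    · exact hc k w hpos hk hw hinj
    · push Not at hinj
      obtain ⟨i, hi, j, hj, hij, hne⟩ := hinj
      wlog hlt : i < j generalizing i j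
      · exact this j hj i hi hij.symm hne.symm (lt_of_le_of_ne (not_lt.1 hlt) hne.symm)
      set m := j - i with hm
      have hm0 : 0 < m := Nat.sub_pos_of_lt hlt
      have h1 : 0 ≤ weight d m (fun l => w (i + l)) := by
        refine ih m (by omega) _ ?_ ?_
        · show w (i + m) = w (i + 0)
          rw [show i + m = j by omega, add_zero, hij]
        · intro l hl
          have := hw (i + l) (by omega)
          simpa [add_assoc] using this
      have h2 : 0 ≤ weight d (k - m) (fun l => if l ≤ i then w l else w (l + m)) := by
        refine ih (k - m) (by omega) _ ?_ ?_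
        · have h3 : ¬ (k - m ≤ i) := by omega
          simp only [h3, if_false, Nat.zero_le, if_true]
          rw [show k - m + m = k by omega, hk]
        · intro l hl
          rcases lt_trichotomy l i with h | h | h
          · have h3 : l ≤ i := h.le
            have h4 : l + 1 ≤ i := h
            simpa [h3, h4] using hw l (by omega)
          · subst h
            have h4 : ¬ (l + 1 ≤ l) := by omega
            simp only [le_refl, if_true, h4, if_false]
            rw [hij, show l + 1 + m = j + 1 by omega]
            exact hw j hj
          · have h3 : ¬ (l ≤ i) := by omega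
            have h4 : ¬ (l + 1 ≤ i) := by omega
            simp only [h3, if_false, h4]
            have := hw (l + m) (by omega)
            rwa [show l + m + 1 = l + 1 + m by omega] at this
      have h3 : weight d k w = weight d m (fun l => w (i + l)) +
          weight d (k - m) (fun l => if l ≤ i then w l else w (l + m)) := by
        have e1 : weight d k w = ∑ l ∈ Finset.range i, d (w l) (w (l + 1)) +
            (∑ l ∈ Finset.range m, d (w (i + l)) (w (i + l + 1)) +
            ∑ l ∈ Finset.range (k - j), d (w (j + l)) (w (j + l + 1))) := by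
          rw [weight, show k = i + (m + (k - j)) by omega, Finset.sum_range_add,
            Finset.sum_range_add]
          simp only [show i + (m + (k - j)) - j = k - j by omega]
          congr 1
          congr 1
          refine Finset.sum_congr rfl fun l _ => ?_
          rw [show i + (m + l) = j + l by omega]
        have e2 : weight d (k - m) (fun l => if l ≤ i then w l else w (l + m)) =
            ∑ l ∈ Finset.range i, d (w l) (w (l + 1)) +
            ∑ l ∈ Finset.range (k - j), d (w (j + l)) (w (j + l + 1)) := by
          rw [weight, show k - m = i + (k - j) by omega, Finset.sum_range_add]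
          congr 1
          · refine Finset.sum_congr rfl fun l hl => ?_
            have h1 : l < i := Finset.mem_range.1 hl
            have h2 : l + 1 ≤ i := h1
            simp [h1.le, h2]
          · refine Finset.sum_congr rfl fun l _ => ?_
            have h4 : ¬ (i + l + 1 ≤ i) := by omega
            rcases Nat.eq_zero_or_pos l with rfl | hl
            · simp only [add_zero, le_refl, if_true, h4, if_false]
              rw [show i + 1 + m = j + 1 by omega, hij]
            · have h3 : ¬ (i + l ≤ i) := by omega
              simp only [h3, if_false, h4]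
              rw [show i + l + m = j + l by omega, show i + l + 1 + m = j + l + 1 by omega]
        rw [e1, e2]
        simp only [weight, ← add_assoc]
        ring
      rw [h3]
      exact add_nonneg h1 h2

/-- **Existence of potentials.** -/
theorem exists_potential (o : V)
    (hfrom : ∀ b, ∃ k W, Wk A d o b k W) (hto : ∀ b, ∃ k W, Wk A d b o k W)
    (hc : ∀ (k : ℕ) (w : ℕ → V), 0 < k → w k = w 0 → IsWalk A k w →
      (∀ i < k, ∀ j < k, w i = w j → i = j) → 0 ≤ weight d k w) :
    ∃ f : V → ℝ, ∀ a b, A a b → f b - f a ≤ d a b := by
  have hcl := closed_nonneg (A := A) (d := d) hc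
  have hbdd : ∀ b, BddBelow {W : ℝ | ∃ k, Wk A d o b k W} := by
    intro b
    obtain ⟨l, U, hU⟩ := hto b
    refine ⟨-U, ?_⟩
    rintro W ⟨k, hW⟩
    obtain ⟨w, h0, hk, hw, hW'⟩ := (hW.append hU).toFun
    have := hcl _ w (by rw [h0, hk]) hw
    rw [hW'] at this
    linarith
  refine ⟨fun b => sInf {W : ℝ | ∃ k, Wk A d o b k W}, fun a b hab => ?_⟩
  have hne : {W : ℝ | ∃ k, Wk A d o a k W}.Nonempty := by
    obtain ⟨k, W, h⟩ := hfrom a
    exact ⟨W, k, h⟩
  have h1 : sInf {W : ℝ | ∃ k, Wk A d o b k W} - d a b ≤ sInf {W : ℝ | ∃ k, Wk A d o a k W} := by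
    refine le_csInf hne ?_
    rintro W ⟨k, hW⟩
    have := csInf_le (hbdd b) ⟨k + 1, hW.snoc b hab⟩
    linarith
  linarith

end Run7.h956.Potential
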