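import Pool.Agent.Run7.h852.DN.Stm

set_option autoImplicit false

/-! Piece DN-PUSH of helper852's project DN: the image of Lebesgue measure on a large ball under a
surjective linear map. -/

namespace Pool.Agent.Run7.h956.DN

open MeasureTheory Set
open Pool.Agent.Y516.NW (E3)
open scoped Pointwise

theorem haar2 : (volume : Measure (E3 × E3)).IsAddHaarMeasure := by
  rw [Measure.volume_eq_prod]
  exact Measure.prod.instIsAddHaarMeasure volume volume

theorem scale {n : ℕ} (hn : 2 ≤ n) (V : (Fin n → E3) →ₗ[ℝ] E3 × E3) (C : ℝ)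
    (h : ∀ A : Set (E3 × E3), volume {P : Fin n → E3 | ‖P‖ ≤ 1 ∧ V P ∈ A} ≤
      ENNReal.ofReal C * volume A) (hC : 0 ≤ C) (R : ℝ) (hR : 0 < R) (A : Set (E3 × E3)) :
    volume {P : Fin n → E3 | ‖P‖ ≤ R ∧ V P ∈ A} ≤
      ENNReal.ofReal (C * R ^ (3 * n - 6)) * volume A := by
  have := haar2
  have e1 : {P : Fin n → E3 | ‖P‖ ≤ R ∧ V P ∈ A} =
      R • {P : Fin n → E3 | ‖P‖ ≤ 1 ∧ V P ∈ R⁻¹ • A} := by
    ext Q
    rw [Set.mem_smul_set_iff_inv_smul_mem₀ hR.ne']
    simp only [Set.mem_ofPred_eq, map_smul]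
    rw [Set.smul_mem_smul_set_iff₀ (inv_ne_zero hR.ne'), norm_smul, norm_inv, Real.norm_eq_abs,
      abs_of_pos hR, inv_mul_le_iff₀ hR, mul_one]
  have f1 : Module.finrank ℝ (Fin n → E3) = 3 * n := by
    rw [Module.finrank_pi_fintype]
    simp [E3, mul_comm]
  have f2 : Module.finrank ℝ (E3 × E3) = 6 := by
    rw [Module.finrank_prod]
    simp [E3]
  rw [e1, Measure.addHaar_smul, f1]
  have h2 := h (R⁻¹ • A)
  have e2 : volume (R⁻¹ • A) = ENNReal.ofReal |R⁻¹ ^ 6| * volume A := by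
    rw [Measure.addHaar_smul, f2]
  rw [e2] at h2
  have hR6 : R ^ (3 * n) * (R⁻¹) ^ 6 = R ^ (3 * n - 6) := by
    have : 3 * n = (3 * n - 6) + 6 := by omega
    conv_lhs => rw [this]
    rw [pow_add, inv_pow, mul_assoc, mul_inv_cancel₀ (pow_pos hR 6).ne', mul_one]
  calc ENNReal.ofReal |R ^ (3 * n)| * volume {P : Fin n → E3 | ‖P‖ ≤ 1 ∧ V P ∈ R⁻¹ • A}
      ≤ ENNReal.ofReal |R ^ (3 * n)| *
        (ENNReal.ofReal C * (ENNReal.ofReal |R⁻¹ ^ 6| * volume A)) := by gcongr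
    _ = ENNReal.ofReal (C * R ^ (3 * n - 6)) * volume A := by
        rw [abs_of_pos (pow_pos hR _), abs_of_pos (pow_pos (inv_pos.2 hR) _), ← hR6,
          ENNReal.ofReal_mul hC, ENNReal.ofReal_mul (pow_pos hR _).le]
        ring

theorem t_PUSH : Run7.h852.DN.PushStm := by
  intro n hn V hV
  have := haar2
  obtain ⟨C, hC, h⟩ := Pool.Agent.N775.NW.push_gen n V hV 1
  refine ⟨C, hC, fun R hR f g hf hg => ?_⟩
  have hVc : Continuous V := LinearMap.continuous_of_finiteDimensional V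
  have hVm : Measurable V := hVc.measurable
  have hmeas : MeasurableSet {Q : Fin n → E3 | ‖Q‖ ≤ R} :=
    (isClosed_le continuous_norm continuous_const).measurableSet
  have hle : (volume.restrict {Q : Fin n → E3 | ‖Q‖ ≤ R}).map V ≤
      ENNReal.ofReal (C * R ^ (3 * n - 6)) • (volume : Measure (E3 × E3)) := by
    refine Measure.le_iff.2 fun A hA => ?_
    rw [Measure.map_apply hVm hA, Measure.restrict_apply (hVm hA), Measure.smul_apply, smul_eq_mul]
    refine le_trans (le_of_eq ?_) (scale hn V C h hC R hR A)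
    congr 1
    ext Q
    simp only [Set.mem_inter_iff, Set.mem_preimage, Set.mem_ofPred_eq]
    tauto
  have hfg : Measurable (fun z : E3 × E3 => f z.1 * g z.2) :=
    (hf.comp measurable_fst).mul (hg.comp measurable_snd)
  calc ∫⁻ Q in {Q : Fin n → E3 | ‖Q‖ ≤ R}, f (V Q).1 * g (V Q).2
      = ∫⁻ z, f z.1 * g z.2 ∂((volume.restrict {Q : Fin n → E3 | ‖Q‖ ≤ R}).map V) :=
        (lintegral_map hfg hVm).symm
    _ ≤ ∫⁻ z, f z.1 * g z.2 ∂(ENNReal.ofReal (C * R ^ (3 * n - 6)) •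
          (volume : Measure (E3 × E3))) := lintegral_mono' hle le_rfl
    _ = ENNReal.ofReal (C * R ^ (3 * n - 6)) * ∫⁻ z : E3 × E3, f z.1 * g z.2 := by
        rw [lintegral_smul_measure, smul_eq_mul]
    _ = _ := by
        rw [Measure.volume_eq_prod, lintegral_prod_mul hf.aemeasurable hg.aemeasurable]

end Pool.Agent.Run7.h956.DN
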